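import Pool.Agent.W223.AC.Stms

/-!
# AC-SUMN: primes at which `y` vanishes to order `m`
-/

set_option autoImplicit false

namespace Pool.Agent.W803.AC

open NumberField IsDedekindDomain Height
open Pool.Agent.W223.CV
open Pool.Agent.W125.CV (fv fv_eq fv_support_finite max_support_finite height_sum prod_sum)

theorem t : Pool.Agent.W223.AC.StmtSUMN := by
  classical
  intro L _ _ S Q y m hy hm hyp
  set T : Finset (HeightOneSpectrum (𝓞 L)) := (fv_support_finite hy).toFinset ∪
    (max_support_finite y).toFinset with hT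
  have hT1 : ∀ v, fv v y ≠ 1 → v ∈ T := fun v hv =>
    Finset.mem_union_left _ ((Set.Finite.mem_toFinset _).2 hv)
  have hT2 : ∀ v, max (fv v y) 1 ≠ 1 → v ∈ T := fun v hv =>
    Finset.mem_union_right _ ((Set.Finite.mem_toFinset _).2 hv)
  have hp : ∀ r : ℝ, (0 : ℝ) < max r 1 := fun r => lt_max_of_lt_right one_pos
  have hfy : ∀ v : HeightOneSpectrum (𝓞 L), 0 < fv v y := fun v => (fv v).pos_iff.2 hy
  have hmono : ∀ v : HeightOneSpectrum (𝓞 L), StrictMono (WithZeroMulInt.toNNReal
      (HeightOneSpectrum.absNorm_ne_zero v)) := fun v =>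
    WithZeroMulInt.toNNReal_strictMono (HeightOneSpectrum.one_lt_absNorm_nnreal v)
  -- at the counted primes `y` is small
  have hsmall : ∀ v : HeightOneSpectrum (𝓞 L), (∀ p ∈ S, (p : 𝓞 L) ∉ v.asIdeal) → Q v →
      fv v y ≤ ((Ideal.absNorm v.asIdeal : ℝ) ^ m)⁻¹ := by
    intro v h1 h2
    have h3 := hyp v h1 h2
    have h4 := (hmono v).monotone h3
    rw [fv_eq]
    have h6 : WithZeroMulInt.toNNReal (HeightOneSpectrum.absNorm_ne_zero v)
        (WithZero.exp (-(m : ℤ))) = ((Ideal.absNorm v.asIdeal : NNReal) ^ m)⁻¹ := by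
      rw [WithZeroMulInt.toNNReal_neg_apply _ WithZero.exp_ne_zero]
      have h7 : (WithZero.unzero (WithZero.exp_ne_zero (a := (-(m : ℤ))))).toAdd =
        -(m : ℤ) := rfl
      rw [h7, zpow_neg, zpow_natCast]
    rw [h6] at h4
    have h8 := NNReal.coe_le_coe.2 h4
    push_cast at h8
    exact h8
  have hN : ∀ v : HeightOneSpectrum (𝓞 L), (1 : ℝ) < (Ideal.absNorm v.asIdeal : ℝ) := by
    intro v
    exact_mod_cast HeightOneSpectrum.one_lt_absNorm v
  have hcle : ∀ v, (m : ℝ) * ct S Q v ≤ Real.log (max (fv v y) 1) - Real.log (fv v y) := by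
    intro v
    unfold ct
    split_ifs with h
    · have h5 := hsmall v h.1 h.2
      have hN0 : (0 : ℝ) < (Ideal.absNorm v.asIdeal : ℝ) := by linarith [hN v]
      have h9 := Real.log_le_log (hfy v) h5
      rw [Real.log_inv, Real.log_pow] at h9
      have h10 : 0 ≤ Real.log (max (fv v y) 1) := Real.log_nonneg (le_max_right _ _)
      linarith
    · rw [mul_zero, sub_nonneg]
      exact Real.log_le_log (hfy v) (le_max_left _ _)
  have hcnt : cc S Q = ∑ v ∈ T, ct S Q v := by
    unfold cc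
    refine finsum_eq_sum_of_support_subset _ fun v hv => ?_
    by_contra hvT
    have h1 : fv v y = 1 := by
      by_contra h
      exact hvT (hT1 v h)
    refine hv ?_
    unfold ct
    rw [if_neg]
    rintro ⟨h2, h3⟩
    have h4 := hsmall v h2 h3
    rw [h1] at h4
    have h5 : (1 : ℝ) < (Ideal.absNorm v.asIdeal : ℝ) ^ m := one_lt_pow₀ (hN v) (by omega)
    have h6 := inv_lt_one_of_one_lt₀ h5
    linarith
  rw [hcnt, Finset.mul_sum]
  have h1 := height_sum y T hT2
  have h2 := prod_sum hy T hT1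
  have h3 : ∑ v ∈ T, (m : ℝ) * ct S Q v ≤ ∑ v ∈ T, Real.log (max (fv v y) 1) -
      ∑ v ∈ T, Real.log (fv v y) := by
    rw [← Finset.sum_sub_distrib]
    exact Finset.sum_le_sum fun v _ => hcle v
  have h4 : ∑ w : InfinitePlace L, (w.mult : ℝ) * Real.log (w y) ≤
      ∑ w : InfinitePlace L, (w.mult : ℝ) * Real.log (max (w y) 1) := by
    refine Finset.sum_le_sum fun w _ => ?_
    refine mul_le_mul_of_nonneg_left ?_ (Nat.cast_nonneg _)
    exact Real.log_le_log (w.1.pos_iff.2 hy) (le_max_left _ _)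
  linarith

end Pool.Agent.W803.AC
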